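import Mathlib
import Pool.Agent.Helper18.Peb.Basic

set_option autoImplicit false

/-!
PB-7b (project PB of helper18, MP_048d5b_co): content bounds and two small combinatorial lemmas.
-/

namespace Pool.Agent.Helper83.PB

open Pool.Agent.Helper18.Peb
open Finset

theorem content {V : Type} (P : V → ℕ) (A : Finset V) (n m : ℕ) (hA : #A ≤ n) :
    ∑ x ∈ A, P x ≤ 2 ^ m * (∑ x ∈ A, P x / 2 ^ m) + n * 2 ^ m := by
  have h1 : ∑ x ∈ A, P x ≤ ∑ x ∈ A, (2 ^ m * (P x / 2 ^ m) + 2 ^ m) := by
    refine Finset.sum_le_sum fun x _ => ?_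
    have h2 := Nat.div_add_mod (P x) (2 ^ m)
    have h3 := Nat.mod_lt (P x) (show 0 < 2 ^ m by positivity)
    omega
  rw [Finset.sum_add_distrib, ← Finset.mul_sum, Finset.sum_const, smul_eq_mul] at h1
  exact h1.trans (Nat.add_le_add_left (Nat.mul_le_mul_right _ hA) _)

theorem content_star {V : Type} (P : V → ℕ) (A : Finset V) (n s t : ℕ) (hA : #A ≤ n) :
    ∑ x ∈ A, P x ≤ 2 ^ (s + t) * ((∑ x ∈ A, P x / 2 ^ t) / 2 ^ s) + 2 ^ (s + t) + n * 2 ^ t := by
  refine (content P A n t hA).trans (Nat.add_le_add_right ?_ _)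
  set K := ∑ x ∈ A, P x / 2 ^ t with hK
  have h2 := Nat.div_add_mod K (2 ^ s)
  have h3 := Nat.mod_lt K (show 0 < 2 ^ s by positivity)
  have h4 : K ≤ 2 ^ s * (K / 2 ^ s) + 2 ^ s := by omega
  calc 2 ^ t * K ≤ 2 ^ t * (2 ^ s * (K / 2 ^ s) + 2 ^ s) := Nat.mul_le_mul_left _ h4
    _ = 2 ^ (s + t) * (K / 2 ^ s) + 2 ^ (s + t) := by rw [pow_add]; ring

/-- a smaller sum below a given function -/
theorem exists_le_sum_eq {α : Type} [Fintype α] [DecidableEq α] (c : α → ℕ) (r : ℕ)
    (h : r ≤ ∑ a, c a) : ∃ m : α → ℕ, m ≤ c ∧ ∑ a, m a = r := by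
  induction r with
  | zero => exact ⟨0, fun a => Nat.zero_le _, by simp⟩
  | succ r ih =>
    obtain ⟨m, hm, hs⟩ := ih (by omega)
    obtain ⟨a, ha⟩ : ∃ a, m a < c a := by
      by_contra hcon
      push Not at hcon
      have := Finset.sum_le_sum (fun a (_ : a ∈ Finset.univ) => hcon a)
      omega
    refine ⟨m + Pi.single a 1, ?_, ?_⟩
    · intro b
      by_cases hb : b = a
      · subst hb
        simpa using ha
      · simpa [hb] using hm b
    · simp [Finset.sum_add_distrib, hs]

/-- transport: demands `dem` can be met from capacities `cap` -/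
theorem transport {α β : Type} [Fintype α] [Fintype β] [DecidableEq α] [DecidableEq β]
    (cap : α → ℕ) (dem : β → ℕ) (h : ∑ b, dem b ≤ ∑ a, cap a) :
    ∃ m : α → β → ℕ, (∀ a, ∑ b, m a b ≤ cap a) ∧ ∀ b, ∑ a, m a b = dem b := by
  have key : ∀ s : Finset β, ∑ b ∈ s, dem b ≤ ∑ a, cap a →
      ∃ m : α → β → ℕ, (∀ a, ∑ b ∈ s, m a b ≤ cap a) ∧ ∀ b ∈ s, ∑ a, m a b = dem b := by
    intro s
    induction s using Finset.induction_on with
    | empty => intro _; exact ⟨fun _ _ => 0, by simp, by simp⟩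
    | insert b₀ s hb ih =>
      intro hs
      rw [Finset.sum_insert hb] at hs
      obtain ⟨m, hm1, hm2⟩ := ih (by omega)
      have hres : dem b₀ ≤ ∑ a, (cap a - ∑ b ∈ s, m a b) := by
        have e1 : ∑ a, (cap a - ∑ b ∈ s, m a b) + ∑ a, ∑ b ∈ s, m a b = ∑ a, cap a := by
          rw [← Finset.sum_add_distrib]
          exact Finset.sum_congr rfl fun a _ => Nat.sub_add_cancel (hm1 a)
        have e2 : ∑ a, ∑ b ∈ s, m a b = ∑ b ∈ s, dem b := by
          rw [Finset.sum_comm]
          exact Finset.sum_congr rfl fun b hb' => hm2 b hb'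
        omega
      obtain ⟨q, hq1, hq2⟩ := exists_le_sum_eq (fun a => cap a - ∑ b ∈ s, m a b) (dem b₀) hres
      refine ⟨fun a b => if b = b₀ then q a else m a b, ?_, ?_⟩
      · intro a
        rw [Finset.sum_insert hb]
        have e3 : ∑ b ∈ s, (if b = b₀ then q a else m a b) = ∑ b ∈ s, m a b := by
          refine Finset.sum_congr rfl fun b hb' => ?_
          have hne : b ≠ b₀ := fun hbb => hb (by rw [← hbb]; exact hb')
          rw [if_neg hne]
        rw [e3]
        simp only [if_true]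
        have h4 : q a ≤ cap a - ∑ b ∈ s, m a b := hq1 a
        have h5 := hm1 a
        omega
      · intro b hb'
        rw [Finset.mem_insert] at hb'
        by_cases hbb : b = b₀
        · subst hbb
          simpa using hq2
        · rcases hb' with hb' | hb'
          · exact absurd hb' hbb
          · simpa [hbb] using hm2 b hb'
  obtain ⟨m, h1, h2⟩ := key Finset.univ h
  exact ⟨m, h1, fun b => h2 b (Finset.mem_univ b)⟩

end Pool.Agent.Helper83.PB
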